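import Mathlib

/-!
A ZFC example of a space that is omega-Lindelof but not k-Lindelof.

The space is the set of nodes of the full binary tree together with one extra point.  Nodes are
isolated, and a set containing the extra point is open when it contains all but finitely many
nodes of every branch.  The space is countable, hence omega-Lindelof, and every compact set is
covered by finitely many branches and the extra point.
-/

namespace Pool.Agent.Results.MP_a2c218_gt.ZfcExample

open Set

/-- A family of open sets, not containing the whole space, such that every finite set lies in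
some member. -/
def IsOmegaCover {X : Type} [TopologicalSpace X] (𝒰 : Set (Set X)) : Prop :=
  (∀ U ∈ 𝒰, IsOpen U) ∧ univ ∉ 𝒰 ∧ ∀ F : Set X, F.Finite → ∃ U ∈ 𝒰, F ⊆ U

/-- A family of open sets, not containing the whole space, such that every compact set lies in
some member. -/
def IsKCover {X : Type} [TopologicalSpace X] (𝒰 : Set (Set X)) : Prop :=
  (∀ U ∈ 𝒰, IsOpen U) ∧ univ ∉ 𝒰 ∧ ∀ K : Set X, IsCompact K → ∃ U ∈ 𝒰, K ⊆ U

/-- Every omega-cover contains a countable omega-cover. -/
def OmegaLindelof (X : Type) [TopologicalSpace X] : Prop :=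
  ∀ 𝒰 : Set (Set X), IsOmegaCover 𝒰 → ∃ 𝒱 ⊆ 𝒰, 𝒱.Countable ∧ IsOmegaCover 𝒱

/-- Every k-cover contains a countable k-cover. -/
def KLindelof (X : Type) [TopologicalSpace X] : Prop :=
  ∀ 𝒰 : Set (Set X), IsKCover 𝒰 → ∃ 𝒱 ⊆ 𝒰, 𝒱.Countable ∧ IsKCover 𝒱

/-! ### The tree -/

/-- Nodes of the binary tree. -/
abbrev Node : Type := Σ n : ℕ, (Fin n → Bool)

/-- The values of a node, extended by `false`. -/
def val (s : Node) (i : ℕ) : Bool := if h : i < s.1 then s.2 ⟨i, h⟩ else false

/-- The node `s` is an initial segment of the branch `b`. -/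
def OnBr (b : ℕ → Bool) (s : Node) : Prop := ∀ i, i < s.1 → val s i = b i

/-- Restriction of a branch to a level. -/
def restr (b : ℕ → Bool) (n : ℕ) : Node := ⟨n, fun i => b i⟩

lemma val_restr (b : ℕ → Bool) (n i : ℕ) (h : i < n) : val (restr b n) i = b i := by
  simp [val, restr, h]

lemma onBr_restr (b : ℕ → Bool) (n : ℕ) : OnBr b (restr b n) := fun i hi => val_restr b n i hi

lemma node_ext {s t : Node} (h : s.1 = t.1) (h2 : ∀ i, i < s.1 → val s i = val t i) : s = t := by
  obtain ⟨n, f⟩ := s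
  obtain ⟨m, g⟩ := t
  simp only at h
  subst h
  congr 1
  funext i
  have := h2 i.1 i.2
  simpa [val] using this

/-- A set of nodes is coverable when finitely many branches cover it. -/
def Cov (K : Set Node) : Prop :=
  ∃ F : Set (ℕ → Bool), F.Finite ∧ ∀ s ∈ K, ∃ b ∈ F, OnBr b s

lemma exists_branch {K : Set Node} (hK : ¬ Cov K) :
    ∃ c : ℕ → Bool, ∀ n, ¬ Cov {s ∈ K | n ≤ s.1 ∧ ∀ i, i < n → val s i = c i} := by
  by_contra hcon
  push Not at hcon
  choose N hN using hcon
  choose F hF hFc using hN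
  obtain ⟨t, -, ht⟩ := (isCompact_univ (X := ℕ → Bool)).elim_nhds_subcover
    (fun c => PiNat.cylinder c (N c))
    (fun c _ => (PiNat.isOpen_cylinder (fun _ => Bool) c (N c)).mem_nhds
      (PiNat.self_mem_cylinder c (N c)))
  apply hK
  set M := t.sup N with hM
  refine ⟨(⋃ c ∈ t, F c) ∪ range (fun f : Fin M → Bool => fun i => if h : i < M then f ⟨i, h⟩
    else false), ?_, ?_⟩
  · refine Finite.union ?_ (finite_range _)
    exact t.finite_toSet.biUnion (fun c _ => hF c)
  · intro s hs
    have h1 : val s ∈ ⋃ c ∈ t, PiNat.cylinder c (N c) := ht (mem_univ _)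
    simp only [mem_iUnion, exists_prop] at h1
    obtain ⟨c, hct, hc⟩ := h1
    by_cases hle : N c ≤ s.1
    · obtain ⟨b, hb, hbs⟩ := hFc c s ⟨hs, hle, fun i hi => hc i hi⟩
      exact ⟨b, Or.inl (mem_biUnion hct hb), hbs⟩
    · push Not at hle
      have hlt : s.1 < M := lt_of_lt_of_le hle (Finset.le_sup hct)
      refine ⟨val s, Or.inr ⟨fun i => val s i, ?_⟩, fun i _ => rfl⟩
      funext i
      by_cases hi : i < M
      · simp [hi]
      · have : ¬ i < s.1 := by omega
        simp [hi, val, this]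

/-- The nodes just outside the subtree spanned by a set of branches. -/
def Exits (F : Set (ℕ → Bool)) : Set Node :=
  {s | (∀ b ∈ F, ¬ OnBr b s) ∧ ∃ b ∈ F, ∀ i, i + 1 < s.1 → val s i = b i}

lemma exits_finite (F : Set (ℕ → Bool)) (b : ℕ → Bool) :
    {s : Node | OnBr b s ∧ s ∈ Exits F}.Finite := by
  have key : ∀ s t : Node, OnBr b s → s ∈ Exits F → OnBr b t → t ∈ Exits F → ¬ s.1 < t.1 := by
    intro s t hs hsE ht htE hlt
    obtain ⟨b', hb', h'⟩ := htE.2
    apply hsE.1 b' hb'
    intro i hi
    rw [hs i hi, ← ht i (by omega), h' i (by omega)]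
  apply Set.Subsingleton.finite
  intro s hs t ht
  have h1 := key s t hs.1 hs.2 ht.1 ht.2
  have h2 := key t s ht.1 ht.2 hs.1 hs.2
  have h3 : s.1 = t.1 := by omega
  refine node_ext h3 ?_
  intro i hi
  rw [hs.1 i hi, ht.1 i (by omega)]

lemma exists_exit {F : Set (ℕ → Bool)} (hF : F.Finite) (hne : F.Nonempty) {c : ℕ → Bool}
    (hc : c ∉ F) : ∃ s ∈ Exits F, OnBr c s := by
  classical
  have hex : ∃ n, ∀ b ∈ F, ∃ i, i < n ∧ c i ≠ b i := by
    have hdiff : ∀ b : ℕ → Bool, ∃ i, b ∈ F → c i ≠ b i := by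
      intro b
      by_cases hb : b ∈ F
      · by_contra hcon
        push Not at hcon
        apply hc
        have : c = b := funext fun i => (hcon i).2
        rw [this]
        exact hb
      · exact ⟨0, fun h => absurd h hb⟩
    choose i hi using hdiff
    obtain ⟨M, hM⟩ := (hF.image i).bddAbove
    exact ⟨M + 1, fun b hb => ⟨i b, Nat.lt_succ_of_le (hM (mem_image_of_mem i hb)), hi b hb⟩⟩
  have hspec := Nat.find_spec hex
  have hmin := fun m => Nat.find_min (m := m) hex
  generalize Nat.find hex = n at hspec hmin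
  obtain ⟨b0, hb0⟩ := hne
  obtain ⟨i0, hi0, -⟩ := hspec b0 hb0
  obtain ⟨m, rfl⟩ : ∃ m, n = m + 1 := ⟨n - 1, by omega⟩
  have h2 := hmin m (by omega)
  push Not at h2
  obtain ⟨b, hb, hbm⟩ := h2
  refine ⟨restr c (m + 1), ⟨?_, b, hb, ?_⟩, onBr_restr c _⟩
  · intro b' hb' hon
    obtain ⟨i, hi, hne'⟩ := hspec b' hb'
    have := hon i hi
    rw [val_restr c _ i hi] at this
    exact hne' this
  · intro i hi
    have hi' : i + 1 < m + 1 := hi
    rw [val_restr c _ i (by omega)]
    exact hbm i (by omega)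

/-! ### The space -/

/-- The underlying set of the space. -/
def Sp : Type := Option Node

instance : TopologicalSpace Sp where
  IsOpen U := (none : Option Node) ∈ U → ∀ b : ℕ → Bool,
    {s : Node | OnBr b s ∧ (some s : Option Node) ∉ U}.Finite
  isOpen_univ := by
    intro _ b
    exact finite_empty.subset (fun s hs => hs.2 (mem_univ _))
  isOpen_inter U V hU hV := by
    intro h b
    refine ((hU h.1 b).union (hV h.2 b)).subset ?_
    rintro s ⟨hs, hs2⟩
    by_cases h1 : (some s : Option Node) ∈ U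
    · exact Or.inr ⟨hs, fun h2 => hs2 ⟨h1, h2⟩⟩
    · exact Or.inl ⟨hs, h1⟩
  isOpen_sUnion S hS := by
    rintro ⟨U, hU, hn⟩ b
    refine (hS U hU hn b).subset ?_
    rintro s ⟨hs, hs2⟩
    exact ⟨hs, fun h1 => hs2 ⟨U, hU, h1⟩⟩

lemma isOpen_iff' (U : Set Sp) : IsOpen U ↔ ((none : Option Node) ∈ U → ∀ b : ℕ → Bool,
    {s : Node | OnBr b s ∧ (some s : Option Node) ∉ U}.Finite) := Iff.rfl

/-- The extra point. -/
def inftyPt : Sp := (none : Option Node)

/-- A node as a point. -/
def pt (s : Node) : Sp := (some s : Option Node)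

lemma isOpen_iff (U : Set Sp) : IsOpen U ↔ (inftyPt ∈ U → ∀ b : ℕ → Bool,
    {s : Node | OnBr b s ∧ pt s ∉ U}.Finite) := Iff.rfl

lemma Sp_cases (x : Sp) : x = inftyPt ∨ ∃ s, x = pt s := by
  cases x with
  | none => exact Or.inl rfl
  | some s => exact Or.inr ⟨s, rfl⟩

lemma pt_ne (s : Node) : pt s ≠ inftyPt := Option.some_ne_none s

lemma pt_inj {s t : Node} (h : pt s = pt t) : s = t := Option.some_injective _ h

instance : Countable Sp := inferInstanceAs (Countable (Option Node))

instance : T1Space Sp where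
  t1 x := by
    rw [← isOpen_compl_iff, isOpen_iff]
    intro _ b
    rcases Sp_cases x with rfl | ⟨t, rfl⟩
    · exact finite_empty.subset (fun s hs => hs.2 (pt_ne s))
    · refine (finite_singleton t).subset (fun s hs => ?_)
      by_contra hne
      exact hs.2 (fun h => hne (pt_inj h))

instance : NormalSpace Sp where
  normal A B hA hB hAB := by
    have key : ∀ A B : Set Sp, IsClosed A → IsClosed B → Disjoint A B → inftyPt ∉ A →
        SeparatedNhds A B := by
      intro A B hA _ hAB hn
      have hAo : IsOpen A := (isOpen_iff A).2 (fun h => absurd h hn)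
      exact ⟨A, Aᶜ, hAo, hA.isOpen_compl, subset_rfl, hAB.subset_compl_left,
        disjoint_compl_right⟩
    by_cases h : inftyPt ∈ A
    · have h2 : inftyPt ∉ B := fun h2 => hAB.le_bot ⟨h, h2⟩
      exact (key B A hB hA hAB.symm h2).symm
    · exact key A B hA hB hAB h

instance : T4Space Sp where

lemma compact_branch (b : ℕ → Bool) : IsCompact (insert inftyPt (pt '' {s | OnBr b s})) := by
  refine isCompact_of_finite_subcover ?_
  intro ι U hU hcov
  obtain ⟨i0, hi0⟩ := mem_iUnion.1 (hcov (mem_insert inftyPt _))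
  have hfin := (isOpen_iff (U i0)).1 (hU i0) hi0 b
  have hc : IsCompact (pt '' {s : Node | OnBr b s ∧ pt s ∉ U i0}) := (hfin.image pt).isCompact
  obtain ⟨t, ht⟩ := hc.elim_finite_subcover U hU (by
    rintro _ ⟨s, hs, rfl⟩
    exact hcov (Or.inr ⟨s, hs.1, rfl⟩))
  classical
  refine ⟨insert i0 t, ?_⟩
  rintro x (rfl | ⟨s, hs, rfl⟩)
  · exact mem_biUnion (Finset.mem_insert_self i0 t) hi0
  · by_cases h : pt s ∈ U i0
    · exact mem_biUnion (Finset.mem_insert_self i0 t) h
    · have := ht ⟨s, ⟨hs, h⟩, rfl⟩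
      simp only [mem_iUnion, exists_prop] at this
      obtain ⟨i, hi, hsi⟩ := this
      exact mem_biUnion (Finset.mem_insert_of_mem hi) hsi

lemma cov_of_compact {K : Set Sp} (hK : IsCompact K) : Cov {s | pt s ∈ K} := by
  by_contra hcon
  obtain ⟨c, hc⟩ := exists_branch hcon
  have hch : ∀ n, ∃ s : Node, pt s ∈ K ∧ n ≤ s.1 ∧ (∀ i, i < n → val s i = c i) ∧
      ¬ OnBr c s := by
    intro n
    by_contra h
    push Not at h
    apply hc n
    exact ⟨{c}, finite_singleton c, fun s hs => ⟨c, rfl, h s hs.1 hs.2.1 hs.2.2⟩⟩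
  choose s hsK hsn hsc hsb using hch
  have hfinD : ∀ b, ∀ n, {t : Node | OnBr b t ∧ pt t ∈ pt '' (s '' {k | n ≤ k})}.Finite := by
    intro b n
    by_cases hbc : b = c
    · refine finite_empty.subset ?_
      rintro t ⟨ht, _, ⟨k, hk, rfl⟩, h2⟩
      have := pt_inj h2
      subst this
      rw [hbc] at ht
      exact hsb k ht
    · obtain ⟨m, hm⟩ : ∃ m, b m ≠ c m := by
        by_contra h
        push Not at h
        exact hbc (funext h)
      refine ((finite_le_nat m).image s).subset ?_
      rintro t ⟨ht, _, ⟨k, hk, rfl⟩, h2⟩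
      have := pt_inj h2
      subst this
      refine ⟨k, ?_, rfl⟩
      by_contra hkm
      have hkm' : m < k := not_le.1 hkm
      have h3 := ht m (lt_of_lt_of_le hkm' (hsn k))
      rw [hsc k m hkm'] at h3
      exact hm h3.symm
  obtain ⟨n, hn⟩ := hK.elim_directed_cover (fun n : ℕ => (pt '' (s '' {k | n ≤ k}))ᶜ)
    (by
      intro n
      rw [isOpen_iff]
      intro _ b
      refine (hfinD b n).subset ?_
      rintro t ⟨ht, ht2⟩
      exact ⟨ht, not_not.1 ht2⟩)
    (by
      intro x _
      rcases Sp_cases x with rfl | ⟨t, rfl⟩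
      · refine mem_iUnion.2 ⟨0, ?_⟩
        rintro ⟨u, _, hu⟩
        exact pt_ne u hu
      · refine mem_iUnion.2 ⟨t.1 + 1, ?_⟩
        rintro ⟨_, ⟨k, hk, rfl⟩, h2⟩
        have := pt_inj h2
        subst this
        have h3 := hsn k
        have h4 : (s k).1 + 1 ≤ k := hk
        omega)
    (by
      apply directed_of_isDirected_le
      intro n m hnm
      apply compl_subset_compl.2
      apply image_mono
      apply image_mono
      intro k hk
      exact le_trans hnm hk)
  exact hn (hsK n) ⟨s n, ⟨n, le_refl n, rfl⟩, rfl⟩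

theorem result : ∃ (X : Type) (_ : TopologicalSpace X), Countable X ∧ T4Space X ∧
    OmegaLindelof X ∧ ¬ KLindelof X := by
  refine ⟨Sp, inferInstance, inferInstance, inferInstance, ?_, ?_⟩
  · intro 𝒰 h𝒰
    have hch : ∀ F : Finset Sp, ∃ U ∈ 𝒰, (F : Set Sp) ⊆ U := fun F =>
      h𝒰.2.2 F F.finite_toSet
    choose U hU hFU using hch
    refine ⟨range U, range_subset_iff.2 hU, countable_range U, ?_, ?_, ?_⟩
    · rintro _ ⟨F, rfl⟩
      exact h𝒰.1 _ (hU F)
    · rintro ⟨F, hF⟩
      apply h𝒰.2.1
      rw [← hF]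
      exact hU F
    · intro F hF
      refine ⟨U hF.toFinset, mem_range_self _, ?_⟩
      have := hFU hF.toFinset
      rwa [hF.coe_toFinset] at this
  · intro hL
    set 𝒰 : Set (Set Sp) := {U | IsOpen U ∧ {b : ℕ → Bool | ∀ s, OnBr b s → pt s ∈ U}.Countable}
      with h𝒰
    have hunc : ¬ (univ : Set (ℕ → Bool)).Countable := by
      rw [countable_univ_iff]
      have h2 : Cardinal.mk (ℕ → Bool) = Cardinal.continuum := by simp
      intro h
      have h1 := Cardinal.mk_le_aleph0_iff.2 h
      rw [h2] at h1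
      exact absurd Cardinal.aleph0_lt_continuum (not_lt.2 h1)
    have hk : IsKCover 𝒰 := by
      refine ⟨fun U hU => hU.1, ?_, ?_⟩
      · intro h
        apply hunc
        have := h.2
        refine this.mono ?_
        intro b _ s _
        trivial
      · intro K hK
        obtain ⟨F0, hF0, hcov⟩ := cov_of_compact hK
        set F : Set (ℕ → Bool) := insert (fun _ => false) F0 with hFdef
        have hF : F.Finite := hF0.insert _
        have hFne : F.Nonempty := ⟨_, mem_insert _ _⟩
        refine ⟨(pt '' Exits F)ᶜ, ⟨?_, ?_⟩, ?_⟩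
        · rw [isOpen_iff]
          intro _ b
          refine (exits_finite F b).subset ?_
          rintro s ⟨hs, hs2⟩
          obtain ⟨t, ht, hts⟩ := not_not.1 hs2
          rw [pt_inj hts] at ht
          exact ⟨hs, ht⟩
        · refine hF.countable.mono ?_
          intro b hb
          by_contra hbF
          obtain ⟨s, hs, hbs⟩ := exists_exit hF hFne hbF
          exact hb s hbs ⟨s, hs, rfl⟩
        · rintro x hx ⟨s, hs, rfl⟩
          obtain ⟨b, hb, hbs⟩ := hcov s hx
          exact hs.1 b (Or.inr hb) hbs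
    obtain ⟨𝒱, h𝒱, hcount, h𝒱k⟩ := hL 𝒰 hk
    apply hunc
    refine (hcount.biUnion (t := fun U _ => {b : ℕ → Bool | ∀ s, OnBr b s → pt s ∈ U})
      (fun U hU => (h𝒱 hU).2)).mono ?_
    intro b _
    obtain ⟨U, hU, hKU⟩ := h𝒱k.2.2 _ (compact_branch b)
    refine mem_biUnion hU ?_
    intro s hs
    exact hKU (Or.inr ⟨s, hs, rfl⟩)

end Pool.Agent.Results.MP_a2c218_gt.ZfcExample
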